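import Mathlib

/-!
A connected graph on 31 vertices with `f(G) < b(G) / l̄`: a 4-cycle joined by an edge to a
complete graph on 27 vertices.
-/

namespace Pool.Agent.Results.MP_0f31da_co.Counter

open SimpleGraph Finset

variable {V : Type} [Fintype V]

/-- The largest order of an induced forest. -/
noncomputable def forestNum (G : SimpleGraph V) : ℕ :=
  sSup {k | ∃ S : Finset V, #S = k ∧ (G.induce (S : Set V)).IsAcyclic}

/-- The largest order of an induced bipartite subgraph. -/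
noncomputable def bipNum (G : SimpleGraph V) : ℕ :=
  sSup {k | ∃ S : Finset V, #S = k ∧ (G.induce (S : Set V)).Colorable 2}

/-- The independence number of the subgraph induced on the neighbourhood of `v`. -/
noncomputable def locInd (G : SimpleGraph V) (v : V) : ℕ := (G.induce (G.neighborSet v)).indepNum

/-- The average of `locInd` over all vertices. -/
noncomputable def avgLocInd (G : SimpleGraph V) : ℚ :=
  (∑ v, (locInd G v : ℚ)) / (Fintype.card V : ℚ)

def adj (u v : Fin 31) : Prop :=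
  u ≠ v ∧ ((4 ≤ u.val ∧ 4 ≤ v.val) ∨ (u.val < 4 ∧ v.val < 4 ∧ (u.val + v.val) % 2 = 1) ∨
    (u.val = 0 ∧ v.val = 4) ∨ (u.val = 4 ∧ v.val = 0))

instance : DecidableRel adj := fun u v => by unfold adj; infer_instance

/-- The 4-cycle `0 1 2 3`, the clique on `4, …, 30`, and the edge `0 4`. -/
def G0 : SimpleGraph (Fin 31) where
  Adj := adj
  symm := ⟨fun u v h => ⟨h.1.symm, by have := h.2; omega⟩⟩
  loopless := ⟨fun u h => h.1 rfl⟩

instance : DecidableRel G0.Adj := inferInstanceAs (DecidableRel adj)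

lemma conn : G0.Connected := by
  rw [connected_iff_exists_forall_reachable]
  refine ⟨4, fun w => ?_⟩
  have h0 : G0.Reachable 4 0 := Adj.reachable (by decide)
  have h1 : G0.Reachable 4 1 := h0.trans (Adj.reachable (by decide))
  have h2 : G0.Reachable 4 2 := h1.trans (Adj.reachable (by decide))
  have h3 : G0.Reachable 4 3 := h2.trans (Adj.reachable (by decide))
  have key : ∀ w : Fin 31, w = 0 ∨ w = 1 ∨ w = 2 ∨ w = 3 ∨ w = 4 ∨ G0.Adj 4 w := by
    decide +kernel
  rcases key w with rfl | rfl | rfl | rfl | rfl | h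
  · exact h0
  · exact h1
  · exact h2
  · exact h3
  · exact Reachable.refl _
  · exact h.reachable

lemma forest_le (S : Finset (Fin 31)) (h : (G0.induce (S : Set (Fin 31))).IsAcyclic) :
    #S ≤ 5 := by
  by_contra hc
  have hsplit := card_filter_add_card_filter_not (s := S) (fun v : Fin 31 => 4 ≤ v.val)
  by_cases h3 : 2 < #(S.filter fun v : Fin 31 => 4 ≤ v.val)
  · obtain ⟨a, b, c, ha, hb, hc', hab, hac, hbc⟩ := two_lt_card_iff.1 h3
    rw [mem_filter] at ha hb hc'
    have e1 : (G0.induce (S : Set (Fin 31))).Adj ⟨a, ha.1⟩ ⟨b, hb.1⟩ :=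
      ⟨hab, Or.inl ⟨ha.2, hb.2⟩⟩
    have e2 : (G0.induce (S : Set (Fin 31))).Adj ⟨b, hb.1⟩ ⟨c, hc'.1⟩ :=
      ⟨hbc, Or.inl ⟨hb.2, hc'.2⟩⟩
    have e3 : (G0.induce (S : Set (Fin 31))).Adj ⟨c, hc'.1⟩ ⟨a, ha.1⟩ :=
      ⟨hac.symm, Or.inl ⟨hc'.2, ha.2⟩⟩
    refine h (Walk.cons e1 (Walk.cons e2 (Walk.cons e3 Walk.nil))) ?_
    simp [Walk.isCycle_def, Walk.isTrail_def, hab, hac, hbc, hab.symm, hac.symm]
  · have hsub : S.filter (fun v : Fin 31 => ¬ 4 ≤ v.val) ⊆ {0, 1, 2, 3} := by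
      intro v hv
      have := (mem_filter.1 hv).2
      revert this
      generalize v = w
      revert w
      decide +kernel
    have heq := eq_of_subset_of_card_le hsub (by
      have : #({0, 1, 2, 3} : Finset (Fin 31)) = 4 := by decide
      omega)
    have hm : ∀ v ∈ ({0, 1, 2, 3} : Finset (Fin 31)), v ∈ S := fun v hv =>
      (mem_filter.1 (heq ▸ hv)).1
    have m0 : (0 : Fin 31) ∈ (S : Set (Fin 31)) := hm 0 (by decide)
    have m1 : (1 : Fin 31) ∈ (S : Set (Fin 31)) := hm 1 (by decide)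
    have m2 : (2 : Fin 31) ∈ (S : Set (Fin 31)) := hm 2 (by decide)
    have m3 : (3 : Fin 31) ∈ (S : Set (Fin 31)) := hm 3 (by decide)
    have e1 : (G0.induce (S : Set (Fin 31))).Adj ⟨0, m0⟩ ⟨1, m1⟩ :=
      show G0.Adj 0 1 by decide
    have e2 : (G0.induce (S : Set (Fin 31))).Adj ⟨1, m1⟩ ⟨2, m2⟩ :=
      show G0.Adj 1 2 by decide
    have e3 : (G0.induce (S : Set (Fin 31))).Adj ⟨2, m2⟩ ⟨3, m3⟩ :=
      show G0.Adj 2 3 by decide
    have e4 : (G0.induce (S : Set (Fin 31))).Adj ⟨3, m3⟩ ⟨0, m0⟩ :=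
      show G0.Adj 3 0 by decide
    refine h (Walk.cons e1 (Walk.cons e2 (Walk.cons e3 (Walk.cons e4 Walk.nil)))) ?_
    simp [Walk.isCycle_def, Walk.isTrail_def]

lemma forestNum_le : forestNum G0 ≤ 5 := by
  refine csSup_le' ?_
  rintro k ⟨S, rfl, h⟩
  exact forest_le S h

lemma bipNum_ge : 6 ≤ bipNum G0 := by
  refine le_csSup ⟨31, ?_⟩ ⟨{0, 1, 2, 3, 5, 6}, by decide, ?_⟩
  · rintro k ⟨S, rfl, -⟩
    simpa using card_le_univ S
  · refine ⟨Coloring.mk (fun v => (⟨v.1.val % 2, Nat.mod_lt _ (by norm_num)⟩ : Fin 2)) ?_⟩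
    have key : ∀ u ∈ ({0, 1, 2, 3, 5, 6} : Finset (Fin 31)),
        ∀ v ∈ ({0, 1, 2, 3, 5, 6} : Finset (Fin 31)), G0.Adj u v → u.val % 2 ≠ v.val % 2 := by
      decide +kernel
    intro u v huv h
    exact key u.1 u.2 v.1 v.2 huv (congrArg Fin.val h)

def col (v : Fin 31) : ℕ := min v.val 4

lemma locInd_le (v : Fin 31) : locInd G0 v ≤ #((G0.neighborFinset v).image col) := by
  obtain ⟨s, hs⟩ := (G0.induce (G0.neighborSet v)).exists_isNIndepSet_indepNum
  rw [locInd, ← hs.card_eq]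
  refine card_le_card_of_injOn (fun w => col w.1) (fun w _ => ?_) ?_
  · exact mem_coe.2 (mem_image_of_mem _ ((mem_neighborFinset _ _ _).2 w.2))
  · intro a ha b hb hab
    by_contra hne
    have hne' : a.1 ≠ b.1 := fun k => hne (Subtype.ext k)
    have hv : a.1.val ≠ b.1.val := fun k => hne' (Fin.ext k)
    have h4 : 4 ≤ a.1.val ∧ 4 ≤ b.1.val := by
      simp only [col] at hab
      omega
    exact hs.isIndepSet ha hb hne ⟨hne', Or.inl h4⟩

lemma sum_le : ∑ v, locInd G0 v ≤ 37 := by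
  refine (sum_le_sum fun v _ => locInd_le v).trans ?_
  decide +kernel

lemma sum_pos : 0 < ∑ v, locInd G0 v := by
  have h : G0.Adj 0 1 := by decide
  have h1 : 1 ≤ locInd G0 0 := by
    have : (G0.induce (G0.neighborSet 0)).IsIndepSet
        (({⟨1, h⟩} : Finset (G0.neighborSet 0)) : Set (G0.neighborSet 0)) := by
      simp
    simpa [locInd] using this.card_le_indepNum
  exact lt_of_lt_of_le h1 (single_le_sum (fun _ _ => Nat.zero_le _) (mem_univ 0))

/-- A connected graph on 31 vertices violating `f(G) ≥ ⌈b(G) / l̄⌉`. -/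
theorem result : ∃ G : SimpleGraph (Fin 31), G.Connected ∧
    (forestNum G : ℚ) < (bipNum G : ℚ) / avgLocInd G := by
  refine ⟨G0, conn, ?_⟩
  have h1 : (forestNum G0 : ℚ) ≤ 5 := by exact_mod_cast forestNum_le
  have h2 : (6 : ℚ) ≤ bipNum G0 := by exact_mod_cast bipNum_ge
  have h3 : (∑ v, (locInd G0 v : ℚ)) ≤ 37 := by exact_mod_cast sum_le
  have h4 : (0 : ℚ) < ∑ v, (locInd G0 v : ℚ) := by exact_mod_cast sum_pos
  have h5 : avgLocInd G0 = (∑ v, (locInd G0 v : ℚ)) / 31 := by simp [avgLocInd]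
  rw [h5, lt_div_iff₀ (by positivity)]
  have h6 : (0 : ℚ) ≤ forestNum G0 := Nat.cast_nonneg _
  nlinarith

end Pool.Agent.Results.MP_0f31da_co.Counter
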